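import Mathlib
import Pool.Agent.KS6_98.OppR.Main

/-!
# Open sets of metrics without property (O) arbitrarily near the round metric

Full negative answer to Q1 and Q2 of MP_da270e_gt, in a stronger form: every neighbourhood of the
round metric, in the `C^∞` topology, contains a nonempty open set of metrics on the two-sphere
without property (O). The metrics `e^{2 ε u} g₀` with `u p = ∑ i, (p i ^ 5 + 100 * p i ^ 3)` are
interior points of the set of the metrics without property (O) for all sufficiently small `ε > 0`.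

The definitions `RMetric` (smooth Riemannian metrics on the unit sphere of `ℝ³`, with the `C^∞`
topology) and `PropertyO` are those of the library result on Q2,
`Pool.Graph.R_pool_sql_team_seeded_47a924f7.T6.H32.OP.Problem`.
-/

set_option autoImplicit false

open scoped Topology
open Pool.Agent.V11191.Opp (E3)
open Pool.Agent.T6.H32.OP Pool.Agent.KS6_98.OppR

namespace Pool.Agent.Results.MP_da270e_gt.NearRoundMetric

/-- `G` is the metric `e^{2 ε u} g₀`, `u p = ∑ i, (p i ^ 5 + 100 * p i ^ 3)`, conformal to the round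
metric `g₀` (the restriction of the inner product of `ℝ³` to the tangent planes). -/
def IsConformal (ε : ℝ) (G : RMetric) : Prop :=
  ∀ p v w : E3, ‖p‖ = 1 → inner ℝ p v = 0 → inner ℝ p w = 0 →
    G.g p v w = Real.exp (2 * ε * ∑ i, (p i ^ 5 + 100 * p i ^ 3)) * inner ℝ v w

/-- `G` is the round metric of the unit sphere. -/
def IsRound (G : RMetric) : Prop :=
  ∀ p v w : E3, ‖p‖ = 1 → inner ℝ p v = 0 → inner ℝ p w = 0 → G.g p v w = inner ℝ v w

/-- (1) For all sufficiently small `ε > 0` the metric `e^{2 ε u} g₀` is an interior point of the set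
of the smooth Riemannian metrics on the two-sphere without property (O) (and this metric exists and
is unique for every `ε`). (2) The round metric is a limit of interior points of this set: each of its
neighbourhoods, in the `C^∞` topology, contains a nonempty open set of metrics without property
(O). (3) In particular some metric does not have property (O) (Q1), and the metrics with property
(O) are not dense (Q2). -/
theorem result :
    (∃ ε₀ : ℝ, 0 < ε₀ ∧ ∀ ε : ℝ, 0 < ε → ε ≤ ε₀ → ∀ G : RMetric, IsConformal ε G →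
      G ∈ interior {G : RMetric | ¬ PropertyO G.g}) ∧
    (∀ ε : ℝ, ∃! G : RMetric, IsConformal ε G) ∧
    (∃! G : RMetric, IsRound G) ∧
    (∀ G : RMetric, IsRound G → G ∈ closure (interior {G : RMetric | ¬ PropertyO G.g})) ∧
    (∀ G : RMetric, IsRound G → ∀ U : Set RMetric, IsOpen U → G ∈ U →
      ∃ V : Set RMetric, IsOpen V ∧ V.Nonempty ∧ V ⊆ U ∧ ∀ G' ∈ V, ¬ PropertyO G'.g) ∧
    (∃ G : RMetric, ¬ PropertyO G.g) ∧
    ¬ Dense {G : RMetric | PropertyO G.g} := by
  have hround : ∀ G : RMetric, IsRound G ↔ IsConf 0 G := by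
    intro G
    constructor
    · intro h p v w h1 h2 h3
      rw [h p v w h1 h2 h3]
      simp
    · intro h p v w h1 h2 h3
      rw [h p v w h1 h2 h3]
      simp
  have huniq : ∀ ε : ℝ, ∃! G : RMetric, IsConf ε G := by
    intro ε
    obtain ⟨G, h1, h2⟩ := exists_conf ε
    exact ⟨G, h1, fun G' h' => ext_metric fun p v w => by rw [eq_mdl h', h2]⟩
  have hcl : ∀ G : RMetric, IsRound G → G ∈ closure (interior {G : RMetric | ¬ PropertyO G.g}) :=
    fun G hG => round_mem ((hround G).1 hG)
  have hopen : ∀ G : RMetric, IsRound G → ∀ U : Set RMetric, IsOpen U → G ∈ U →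
      ∃ V : Set RMetric, IsOpen V ∧ V.Nonempty ∧ V ⊆ U ∧ ∀ G' ∈ V, ¬ PropertyO G'.g := by
    intro G hG U hU hGU
    obtain ⟨A, hA1, hA2⟩ := mem_closure_iff.1 (hcl G hG) U hU hGU
    exact ⟨U ∩ interior {G : RMetric | ¬ PropertyO G.g}, hU.inter isOpen_interior, ⟨A, hA1, hA2⟩,
      Set.inter_subset_left, fun G' hG' => interior_subset hG'.2⟩
  obtain ⟨G₀, hG₀, hG₀'⟩ := huniq 0
  have hG₀r : IsRound G₀ := (hround G₀).2 hG₀
  obtain ⟨V, hV1, ⟨A, hA⟩, -, hV⟩ := hopen G₀ hG₀r Set.univ isOpen_univ trivial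
  refine ⟨?_, huniq, ⟨G₀, hG₀r, fun G hG => hG₀' G ((hround G).1 hG)⟩, hcl, hopen,
    ⟨A, hV A hA⟩, ?_⟩
  · obtain ⟨ε₀, hε₀, h⟩ := nhd_noO
    refine ⟨ε₀, hε₀, fun ε h1 h2 G hG => ?_⟩
    exact mem_interior_iff_mem_nhds.2 (h ε h1 h2 G fun p v w => eq_mdl hG p v w)
  · intro hD
    obtain ⟨G, hG1, hG2⟩ := hD.inter_open_nonempty V hV1 ⟨A, hA⟩
    exact hV G hG1 hG2

end Pool.Agent.Results.MP_da270e_gt.NearRoundMetric
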